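import Pool.Agent.Y676.Defs2

/-!
# TSM: elementary parts (helper141, for helper676)
-/

set_option autoImplicit false

namespace Pool.Agent.Y141.TS

open Finset Pool.Agent.Y676

theorem omega_le (D : ℕ) (hD : 1 ≤ D) : (D.primeFactors.card : ℝ) * Real.log 2 ≤ Real.log D := by
  have h1 : 2 ^ D.primeFactors.card ≤ D := by
    calc 2 ^ D.primeFactors.card ≤ ∏ p ∈ D.primeFactors, p := by
          rw [← prod_const]
          exact prod_le_prod' fun p hp => (Nat.prime_of_mem_primeFactors hp).two_le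
      _ ≤ D := Nat.le_of_dvd hD (Nat.prod_primeFactors_dvd D)
  have h2 : ((2 : ℝ) ^ D.primeFactors.card) ≤ D := by exact_mod_cast h1
  have h3 := Real.log_le_log (by positivity) h2
  rwa [Real.log_pow] at h3

/-- many primes with symbol `-1` if the sum of the symbols is small -/
theorem ls_card (W Q D : ℕ) (hD : D ≠ 0) :
    ((PQ W Q).card : ℝ) - |(SJ W Q D : ℝ)| - D.primeFactors.card ≤ 2 * ((LS W Q D).card : ℝ) := by
  classical
  have h1 : ((PQ W Q).card : ℤ) - SJ W Q D ≤ 2 * ((LS W Q D).card : ℤ) + D.primeFactors.card := by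
    have h2 : ((PQ W Q).card : ℤ) - SJ W Q D = ∑ q ∈ PQ W Q, (1 - jacobiSym (q : ℤ) D) := by
      unfold SJ
      rw [sum_sub_distrib]
      simp
    have h3 : ∑ q ∈ PQ W Q, (1 - jacobiSym (q : ℤ) D) ≤
        ∑ q ∈ PQ W Q, (2 * (if jacobiSym (q : ℤ) D = -1 then (1 : ℤ) else 0) +
          (if q ∈ D.primeFactors then (1 : ℤ) else 0)) := by
      apply sum_le_sum
      intro q hq
      have hqp : q.Prime := by
        unfold PQ at hq
        rw [mem_filter] at hq
        exact hq.2.1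
      rcases jacobiSym.trichotomy (q : ℤ) D with h | h | h
      · rw [h]
        have hmem : q ∈ D.primeFactors := by
          rw [Nat.mem_primeFactors]
          refine ⟨hqp, ?_, hD⟩
          have h4 := (jacobiSym.eq_zero_iff (a := (q : ℤ)) (b := D)).mp h
          have h5 := h4.2
          rw [Int.gcd_natCast_natCast] at h5
          by_contra hnd
          exact h5 ((Nat.Prime.coprime_iff_not_dvd hqp).mpr hnd)
        rw [if_pos hmem]
        norm_num
      · rw [h]
        split_ifs <;> norm_num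
      · rw [h, if_pos rfl]
        split_ifs <;> norm_num
    have h4 : ∑ q ∈ PQ W Q, (if q ∈ D.primeFactors then (1 : ℤ) else 0) ≤ D.primeFactors.card := by
      rw [← sum_filter, sum_const, nsmul_eq_mul, mul_one]
      have : (PQ W Q).filter (fun q => q ∈ D.primeFactors) ⊆ D.primeFactors := fun q hq =>
        (mem_filter.mp hq).2
      exact_mod_cast card_le_card this
    have h5 : ∑ q ∈ PQ W Q, (2 * (if jacobiSym (q : ℤ) D = -1 then (1 : ℤ) else 0)) =
        2 * ((LS W Q D).card : ℤ) := by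
      rw [← mul_sum, ← sum_filter, sum_const, nsmul_eq_mul, mul_one]
      rfl
    rw [h2]
    refine h3.trans ?_
    rw [sum_add_distrib, h5]
    linarith
  have h6 : ((PQ W Q).card : ℝ) - (SJ W Q D : ℝ) ≤ 2 * ((LS W Q D).card : ℝ) + D.primeFactors.card := by
    exact_mod_cast h1
  have := le_abs_self (SJ W Q D : ℝ)
  linarith

/-- dyadic lower bound of a harmonic sum -/
theorem geo (l : ℕ) (hl : 1 ≤ l) (I : Finset ℕ) :
    ∑ i ∈ I.filter (fun i => l ≤ 2 ^ i), (1 / 2 : ℝ) ^ (i + 1) ≤ 1 / l := by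
  set j := Nat.clog 2 l with hj
  have hlj : l ≤ 2 ^ j := Nat.le_pow_clog (by norm_num) l
  have hsub : I.filter (fun i => l ≤ 2 ^ i) ⊆ (Ico j (I.sup id + 1)) := by
    intro i hi
    rw [mem_filter] at hi
    rw [mem_Ico]
    refine ⟨?_, ?_⟩
    · rw [hj]
      exact (Nat.clog_le_iff_le_pow (by norm_num)).mpr hi.2
    · exact Nat.lt_succ_of_le (le_sup (f := id) hi.1)
  have h1 : ∀ n : ℕ, ∑ i ∈ Ico j (j + n), (1 / 2 : ℝ) ^ (i + 1) = (1 / 2) ^ j - (1 / 2) ^ (j + n) := by
    intro n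
    induction n with
    | zero => simp
    | succ n ih =>
      rw [← add_assoc, sum_Ico_succ_top (by omega), ih]
      ring
  have h2 : ∑ i ∈ Ico j (I.sup id + 1), (1 / 2 : ℝ) ^ (i + 1) ≤ (1 / 2) ^ j := by
    by_cases hjm : j ≤ I.sup id + 1
    · obtain ⟨n, hn⟩ := Nat.exists_eq_add_of_le hjm
      rw [hn, h1]
      have : (0 : ℝ) ≤ (1 / 2) ^ (j + n) := by positivity
      linarith
    · rw [Ico_eq_empty (by omega), sum_empty]
      positivity
  refine (sum_le_sum_of_subset_of_nonneg hsub fun i _ _ => by positivity).trans (h2.trans ?_)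
  rw [one_div_pow]
  apply one_div_le_one_div_of_le
  · exact_mod_cast hl
  · exact_mod_cast hlj

/-- the harmonic sum over `LS W X D` from the numbers of elements up to powers of 2 -/
theorem harm (W X D i1 : ℕ) (h : 2 ^ i1 ≤ X) (I : Finset ℕ) (hI : ∀ i ∈ I, i ≤ i1) :
    ∑ i ∈ I, (1 / 2 : ℝ) ^ (i + 1) * ((LS W (2 ^ i) D).card : ℝ) ≤
      ∑ l ∈ LS W X D, (1 : ℝ) / l := by
  classical
  have h1 : ∀ i ∈ I, LS W (2 ^ i) D = (LS W X D).filter (fun l => l ≤ 2 ^ i) := by
    intro i hi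
    have h2 : 2 ^ i ≤ X := (Nat.pow_le_pow_right (by norm_num) (hI i hi)).trans h
    ext l
    unfold LS PQ
    simp only [mem_filter, mem_Icc]
    constructor
    · rintro ⟨⟨⟨h3, h4⟩, h5⟩, h6⟩
      exact ⟨⟨⟨⟨h3, h4.trans h2⟩, h5⟩, h6⟩, h4⟩
    · rintro ⟨⟨⟨⟨h3, -⟩, h5⟩, h6⟩, h4⟩
      exact ⟨⟨⟨h3, h4⟩, h5⟩, h6⟩
  have h2 : ∑ i ∈ I, (1 / 2 : ℝ) ^ (i + 1) * ((LS W (2 ^ i) D).card : ℝ) =
      ∑ l ∈ LS W X D, ∑ i ∈ I.filter (fun i => l ≤ 2 ^ i), (1 / 2 : ℝ) ^ (i + 1) := by
    have h3 : ∀ i ∈ I, (1 / 2 : ℝ) ^ (i + 1) * ((LS W (2 ^ i) D).card : ℝ) =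
        ∑ l ∈ LS W X D, if l ≤ 2 ^ i then (1 / 2 : ℝ) ^ (i + 1) else 0 := by
      intro i hi
      rw [h1 i hi, ← sum_filter, sum_const, nsmul_eq_mul, mul_comm]
    rw [sum_congr rfl h3, sum_comm]
    exact sum_congr rfl fun l _ => (sum_filter _ _).symm
  rw [h2]
  apply sum_le_sum
  intro l hl
  apply geo
  unfold LS PQ at hl
  simp only [mem_filter, mem_Icc] at hl
  exact hl.1.1.1

theorem log_le_sum (a : ℕ) (n : ℕ) :
    Real.log (a + 1 + n) - Real.log (a + 1) ≤ ∑ i ∈ Ioo a (a + 1 + n), (1 : ℝ) / i := by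
  induction n with
  | zero =>
    simp only [Nat.cast_zero, add_zero, sub_self]
    exact sum_nonneg fun i _ => by positivity
  | succ n ih =>
    have h1 : Ioo a (a + 1 + (n + 1)) = insert (a + 1 + n) (Ioo a (a + 1 + n)) := by
      ext i
      simp only [mem_Ioo, mem_insert]
      omega
    rw [h1, sum_insert (by simp)]
    have hpos : (0 : ℝ) < a + 1 + n := by positivity
    have h2 : Real.log (a + 1 + (n + 1 : ℕ)) - Real.log (a + 1 + n) ≤ 1 / ((a + 1 + n : ℕ) : ℝ) := by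
      rw [← Real.log_div (by positivity) (by positivity)]
      have h3 := Real.log_le_sub_one_of_pos (x := (a + 1 + (n + 1 : ℕ) : ℝ) / (a + 1 + n)) (by positivity)
      refine h3.trans (le_of_eq ?_)
      push_cast
      field_simp
      ring
    linarith

end Pool.Agent.Y141.TS
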