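import Pool.Agent.Y141.TS.A

/-!
# TSM: the large sieve step (helper141, for helper676)
-/

set_option autoImplicit false

namespace Pool.Agent.Y141.TS

open Finset Pool.Agent.Y676

theorem cheb (h1 : S_LSM) (W V Z m : ℕ) (h8 : 8 ∣ W) (hW : 0 < W) (S : Finset ℕ)
    (hS : S ⊆ (Icc 1 Z).filter (fun D => Odd D ∧ Squarefree D))
    (y : ℝ) (hy : 0 ≤ y) (hb : ∀ D ∈ S, y ≤ |(SJ W V D : ℝ)|) :
    (S.card : ℝ) * y ^ (2 * m) ≤
      6 * ((V : ℝ) ^ m + 64 * (Z : ℝ) ^ 2) * (m.factorial * (V : ℝ) ^ m) := by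
  refine le_trans ?_ (h1 W V Z m h8 hW)
  calc (S.card : ℝ) * y ^ (2 * m) = ∑ _D ∈ S, y ^ (2 * m) := by
        rw [sum_const, nsmul_eq_mul]
    _ ≤ ∑ D ∈ S, |(SJ W V D : ℝ)| ^ (2 * m) :=
        sum_le_sum fun D hD => pow_le_pow_left₀ hy (hb D hD) _
    _ ≤ _ := by
        apply sum_le_sum_of_subset_of_nonneg hS
        intro D _ _
        positivity

/-- the number of exceptional moduli for one scale -/
theorem cardB (h1 : S_LSM) (W V Z : ℕ) (c L : ℝ) (h8 : 8 ∣ W) (hW : 0 < W) (hc : 0 < c)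
    (hV : 2 ≤ V) (hVL : Real.log V ≤ L) (hLV : Real.sqrt L / 2 ≤ Real.log V) (hZ : 1 ≤ Z)
    (hZL : Real.log Z ≤ L) (hL1 : 1 ≤ L) (hLc : 80 / c ^ 2 ≤ Real.sqrt L)
    (hLL : 48 * Real.log L ≤ Real.sqrt L) (S : Finset ℕ)
    (hS : S ⊆ (Icc 1 Z).filter (fun D => Odd D ∧ Squarefree D))
    (hb : ∀ D ∈ S, (c / 4) * V / Real.log V ≤ |(SJ W V D : ℝ)|) :
    (S.card : ℝ) ≤ 390 * L ^ 3 * Real.exp (Real.log Z / 4) := by
  have hsq : 1 ≤ Real.sqrt L := by rw [Real.one_le_sqrt]; exact hL1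
  have hsq2 : Real.sqrt L * Real.sqrt L = L := Real.mul_self_sqrt (by linarith)
  have hlV : 0 < Real.log V := by linarith
  have hVr : (0 : ℝ) < V := by positivity
  have hZr : (1 : ℝ) ≤ Z := by exact_mod_cast hZ
  have hlZ : 0 ≤ Real.log Z := Real.log_nonneg hZr
  have hlL : 0 ≤ Real.log L := Real.log_nonneg hL1
  -- the exponent
  have hex : ∃ n, Z ^ 2 ≤ V ^ (n + 1) := by
    obtain ⟨n, hn⟩ := pow_unbounded_of_one_lt (Z ^ 2) (show 1 < V by omega)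
    exact ⟨n, hn.le.trans (Nat.pow_le_pow_right (by omega) (Nat.le_succ n))⟩
  classical
  obtain ⟨n, hn, hmin⟩ : ∃ n, Z ^ 2 ≤ V ^ (n + 1) ∧ ∀ n' < n, V ^ (n' + 1) < Z ^ 2 :=
    ⟨Nat.find hex, Nat.find_spec hex, fun n' h => not_le.1 (Nat.find_min hex h)⟩
  have hnV : (n : ℝ) * Real.log V ≤ 2 * Real.log Z := by
    rcases Nat.eq_zero_or_pos n with rfl | hpos
    · simp only [Nat.cast_zero, zero_mul]; linarith
    · obtain ⟨k, rfl⟩ : ∃ k, n = k + 1 := ⟨n - 1, by omega⟩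
      have h2 := hmin k (Nat.lt_succ_self k)
      have h3 : ((V : ℝ) ^ (k + 1)) ≤ (Z : ℝ) ^ 2 := by exact_mod_cast h2.le
      have h4 := Real.log_le_log (by positivity) h3
      rw [Real.log_pow, Real.log_pow] at h4
      push_cast at h4 ⊢
      exact h4
  have hnL : (n : ℝ) * Real.sqrt L ≤ 4 * Real.log Z := by
    have h2 : (0 : ℝ) ≤ n := Nat.cast_nonneg n
    nlinarith
  have hm5 : ((n + 1 : ℕ) : ℝ) ≤ 5 * Real.sqrt L := by
    push_cast
    have h3 : (n : ℝ) * Real.sqrt L ≤ (4 * Real.sqrt L) * Real.sqrt L := by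
      rw [mul_assoc, hsq2]; linarith
    have h4 := le_of_mul_le_mul_right h3 (by linarith)
    linarith
  have h2 := cheb h1 W V Z (n + 1) h8 hW S hS ((c / 4) * V / Real.log V) (by positivity) hb
  have hZV : ((Z : ℝ) ^ 2) ≤ (V : ℝ) ^ (n + 1) := by exact_mod_cast hn
  have hfac : (((n + 1).factorial : ℕ) : ℝ) ≤ ((n + 1 : ℕ) : ℝ) ^ (n + 1) := by
    exact_mod_cast Nat.factorial_le_pow (n + 1)
  have h3 : (S.card : ℝ) ≤ 390 * (((n + 1 : ℕ) : ℝ) * (4 * Real.log V / c) ^ 2) ^ (n + 1) := by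
    have hT : (0 : ℝ) < ((c / 4) * V / Real.log V) ^ (2 * (n + 1)) := by positivity
    refine le_of_mul_le_mul_right (h2.trans ?_) hT
    have e1 : 390 * (((n + 1 : ℕ) : ℝ) * (4 * Real.log V / c) ^ 2) ^ (n + 1) *
        ((c / 4) * V / Real.log V) ^ (2 * (n + 1)) =
        390 * (V : ℝ) ^ (n + 1) * (((n + 1 : ℕ) : ℝ) ^ (n + 1) * (V : ℝ) ^ (n + 1)) := by
      rw [mul_pow, ← pow_mul (4 * Real.log V / c) 2 (n + 1)]
      have e2 : (4 * Real.log V / c) ^ (2 * (n + 1)) * ((c / 4) * V / Real.log V) ^ (2 * (n + 1)) =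
          (V : ℝ) ^ (n + 1) * (V : ℝ) ^ (n + 1) := by
        rw [← mul_pow, ← pow_add, ← two_mul]
        congr 1
        field_simp
      calc 390 * ((((n + 1 : ℕ) : ℝ)) ^ (n + 1) * (4 * Real.log V / c) ^ (2 * (n + 1))) *
          ((c / 4) * V / Real.log V) ^ (2 * (n + 1)) = 390 * (((n + 1 : ℕ) : ℝ)) ^ (n + 1) *
          ((4 * Real.log V / c) ^ (2 * (n + 1)) * ((c / 4) * V / Real.log V) ^ (2 * (n + 1))) := by
            ring
        _ = _ := by rw [e2]; ring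
    rw [e1]
    have h4 : 6 * ((V : ℝ) ^ (n + 1) + 64 * (Z : ℝ) ^ 2) ≤ 390 * (V : ℝ) ^ (n + 1) := by linarith
    gcongr
  refine h3.trans ?_
  have h5 : ((n + 1 : ℕ) : ℝ) * (4 * Real.log V / c) ^ 2 ≤ L ^ 3 := by
    calc ((n + 1 : ℕ) : ℝ) * (4 * Real.log V / c) ^ 2 ≤ (5 * Real.sqrt L) * (4 * L / c) ^ 2 := by
          gcongr
      _ = (80 / c ^ 2) * Real.sqrt L * L ^ 2 := by
          field_simp; ring
      _ ≤ Real.sqrt L * Real.sqrt L * L ^ 2 := by gcongr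
      _ = L ^ 3 := by rw [hsq2]; ring
  have h6 : (((n + 1 : ℕ) : ℝ) * (4 * Real.log V / c) ^ 2) ^ (n + 1) ≤ (L ^ 3) ^ (n + 1) := by
    gcongr
  have h7 : (L ^ 3) ^ (n + 1) ≤ L ^ 3 * Real.exp (Real.log Z / 4) := by
    rw [pow_succ, mul_comm]
    have h8 : (L ^ 3) ^ n = Real.exp (3 * n * Real.log L) := by
      rw [← pow_mul, ← Real.exp_log (show (0:ℝ) < L by linarith), ← Real.exp_nat_mul, Real.log_exp]
      push_cast
      ring_nf
    rw [h8]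
    have h9 : 3 * n * Real.log L ≤ Real.log Z / 4 := by
      have h10 : (48 * Real.log L) * n ≤ 4 * Real.log Z := by
        calc (48 * Real.log L) * n ≤ Real.sqrt L * n := by gcongr
          _ ≤ _ := by linarith
      nlinarith
    gcongr
  calc 390 * (((n + 1 : ℕ) : ℝ) * (4 * Real.log V / c) ^ 2) ^ (n + 1) ≤
      390 * (L ^ 3 * Real.exp (Real.log Z / 4)) := by
        gcongr
        exact h6.trans h7
    _ = _ := by ring

end Pool.Agent.Y141.TS
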