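import Pool.Agent.Y141.TS.B

/-!
# TSM: assembly (helper141, for helper676)
-/

set_option autoImplicit false

namespace Pool.Agent.Y141.TS

open Finset Pool.Agent.Y676

/-- conditions on `L` -/
structure Cond (c q L : ℝ) : Prop where
  h1 : 10000 ≤ L
  hc : 80 / c ^ 2 ≤ Real.sqrt L
  hl : 48 * Real.log L ≤ Real.sqrt L
  hq : q ≤ Real.sqrt L
  hw : 1290240 / c ≤ L ^ 2

theorem cond_ev (c q : ℝ) : ∃ L0 : ℝ, ∀ L ≥ L0, Cond c q L := by
  have hs : Filter.Tendsto Real.sqrt Filter.atTop Filter.atTop := Real.tendsto_sqrt_atTop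
  have h1 := Filter.eventually_ge_atTop (10000 : ℝ)
  have h2 := hs.eventually_ge_atTop (80 / c ^ 2)
  have h4 := hs.eventually_ge_atTop q
  have h5 : Filter.Tendsto (fun L : ℝ => L ^ 2) Filter.atTop Filter.atTop :=
    Filter.tendsto_pow_atTop (by norm_num)
  have h6 := h5.eventually_ge_atTop (1290240 / c)
  have h3 : ∀ᶠ L : ℝ in Filter.atTop, 48 * Real.log L ≤ Real.sqrt L := by
    have h7 := (isLittleO_log_rpow_atTop (show (0 : ℝ) < 1 / 2 by norm_num)).bound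
      (show (0 : ℝ) < 1 / 48 by norm_num)
    filter_upwards [h7, Filter.eventually_ge_atTop (1 : ℝ)] with L h8 h9
    rw [Real.norm_of_nonneg (Real.log_nonneg h9), Real.norm_of_nonneg (by positivity),
      ← Real.sqrt_eq_rpow] at h8
    linarith
  obtain ⟨L0, hL0⟩ := Filter.eventually_atTop.mp (h1.and (h2.and (h3.and (h4.and h6))))
  exact ⟨L0, fun L hL => ⟨(hL0 L hL).1, (hL0 L hL).2.1, (hL0 L hL).2.2.1, (hL0 L hL).2.2.2.1,
    (hL0 L hL).2.2.2.2⟩⟩

/-- properties of the scales -/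
theorem scale {c q : ℝ} {X i : ℕ} (hX : 1 ≤ X) (hC : Cond c q (Real.log X))
    (h0 : ⌈Real.sqrt (Real.log X)⌉₊ ≤ i) (h1 : i ≤ Nat.log 2 X) :
    2 ≤ 2 ^ i ∧ 2 ^ i ≤ X ∧ Real.log ((2 ^ i : ℕ) : ℝ) = i * Real.log 2 ∧
      Real.log ((2 ^ i : ℕ) : ℝ) ≤ Real.log X ∧
      Real.sqrt (Real.log X) / 2 ≤ Real.log ((2 ^ i : ℕ) : ℝ) ∧ q ≤ ((2 ^ i : ℕ) : ℝ) ∧
      Real.sqrt (Real.log X) ≤ i := by
  have hL1 : (1 : ℝ) ≤ Real.log X := by have := hC.h1; linarith
  have hs1 : 1 ≤ Real.sqrt (Real.log X) := by rw [Real.one_le_sqrt]; exact hL1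
  have hi : Real.sqrt (Real.log X) ≤ i := (Nat.le_ceil _).trans (by exact_mod_cast h0)
  have hi1 : 1 ≤ i := by
    have : (1 : ℝ) ≤ i := hs1.trans hi
    exact_mod_cast this
  have hle : 2 ^ i ≤ X := (Nat.pow_le_pow_right (by norm_num) h1).trans
    (Nat.pow_log_le_self 2 (by omega))
  have hlog : Real.log ((2 ^ i : ℕ) : ℝ) = i * Real.log 2 := by
    push_cast
    rw [Real.log_pow]
  have h2 : (0.6931471803 : ℝ) < Real.log 2 := Real.log_two_gt_d9
  refine ⟨?_, hle, hlog, ?_, ?_, ?_, hi⟩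
  · calc 2 = 2 ^ 1 := by norm_num
      _ ≤ 2 ^ i := Nat.pow_le_pow_right (by norm_num) hi1
  · apply Real.log_le_log
    · positivity
    · exact_mod_cast hle
  · rw [hlog]
    nlinarith
  · have h3 : i < 2 ^ i := Nat.lt_two_pow_self
    have h4 : (i : ℝ) ≤ ((2 ^ i : ℕ) : ℝ) := by exact_mod_cast h3.le
    exact (hC.hq.trans hi).trans h4

/-- the good moduli -/
theorem good (W X D : ℕ) (c c0 q : ℝ) (hc : 0 < c) (hc1 : c ≤ 1) (hcc : c ≤ c0) (hX : 1 ≤ X)
    (hC : Cond c q (Real.log X))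
    (hP : ∀ Q : ℕ, q ≤ Q → c0 * Q / Real.log Q ≤ ((PQ W Q).card : ℝ))
    (hD : 1 ≤ D) (hDX : D ^ 2 ≤ X)
    (hg : ∀ i ∈ Icc ⌈Real.sqrt (Real.log X)⌉₊ (Nat.log 2 X),
      |(SJ W (2 ^ i) D : ℝ)| ≤ (c / 4) * ((2 ^ i : ℕ) : ℝ) / Real.log ((2 ^ i : ℕ) : ℝ)) :
    c / 32 * Real.log (Real.log X) ≤ ∑ l ∈ LS W X D, (1 : ℝ) / l := by
  set L := Real.log X with hL
  have hL1 : (10000 : ℝ) ≤ L := hC.h1
  set i0 := ⌈Real.sqrt L⌉₊ with hi0
  set i1 := Nat.log 2 X with hi1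
  have hs100 : (100 : ℝ) ≤ Real.sqrt L := by
    rw [Real.le_sqrt (by norm_num) (by linarith)]; linarith
  have hsq2 : Real.sqrt L * Real.sqrt L = L := Real.mul_self_sqrt (by linarith)
  have hl2 : (0.6931471803 : ℝ) < Real.log 2 := Real.log_two_gt_d9
  have hl2' : Real.log 2 < 0.6931471808 := Real.log_two_lt_d9
  -- i1 ≥ L
  have hXr : (1 : ℝ) ≤ X := by exact_mod_cast hX
  have hi1L : L ≤ i1 := by
    have h2 : X < 2 ^ (i1 + 1) := Nat.lt_pow_succ_log_self (by norm_num) X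
    have h3 : (X : ℝ) ≤ (2 : ℝ) ^ (i1 + 1) := by exact_mod_cast h2.le
    have h4 := Real.log_le_log (by linarith) h3
    rw [Real.log_pow, ← hL] at h4
    push_cast at h4
    nlinarith
  have hi0L : ((i0 : ℕ) : ℝ) + 1 ≤ 2 * Real.sqrt L := by
    have := Nat.ceil_lt_add_one (Real.sqrt_nonneg L)
    rw [← hi0] at this
    linarith
  have hlt : i0 + 1 ≤ i1 := by
    have : ((i0 + 1 : ℕ) : ℝ) ≤ i1 := by
      push_cast
      nlinarith
    exact_mod_cast this
  obtain ⟨n, hn⟩ : ∃ n, i1 = i0 + 1 + n := Nat.exists_eq_add_of_le hlt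
  -- number of elements
  have hcard : ∀ i ∈ Ioo i0 i1, c / 4 * ((2 : ℝ) ^ i / (i * Real.log 2)) ≤
      ((LS W (2 ^ i) D).card : ℝ) := by
    intro i hi
    rw [mem_Ioo] at hi
    obtain ⟨hV2, hVX, hlog, hlogL, hlogL2, hq, his⟩ := scale hX hC
      (by rw [← hL, ← hi0]; exact hi.1.le) (hi.2.le)
    rw [← hL] at hlogL hlogL2 his
    have h2 := ls_card W (2 ^ i) D (by omega)
    have h3 := hP (2 ^ i) hq
    have h4 := hg i (mem_Icc.mpr ⟨by omega, by omega⟩)
    have hipos : (0 : ℝ) < i := by linarith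
    have hlpos : 0 < Real.log ((2 ^ i : ℕ) : ℝ) := by rw [hlog]; positivity
    have hVr : (0 : ℝ) < ((2 ^ i : ℕ) : ℝ) := by positivity
    -- number of prime factors
    have h5 : (D.primeFactors.card : ℝ) ≤ (c / 4) * ((2 ^ i : ℕ) : ℝ) / Real.log ((2 ^ i : ℕ) : ℝ) := by
      have h6 := omega_le D hD
      have hDL : Real.log D ≤ L / 2 := by
        have h9 : ((D : ℝ)) ^ 2 ≤ X := by exact_mod_cast hDX
        have h10 := Real.log_le_log (by positivity) h9
        rw [Real.log_pow, ← hL] at h10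
        push_cast at h10
        linarith
      have h7 : (D.primeFactors.card : ℝ) ≤ L := by
        have h0 : (0 : ℝ) ≤ D.primeFactors.card := Nat.cast_nonneg _
        nlinarith
      set v := Real.log ((2 ^ i : ℕ) : ℝ) with hv
      have h8 : v ^ 7 / 5040 ≤ ((2 ^ i : ℕ) : ℝ) := by
        have h9 := Real.pow_div_factorial_le_exp v hlpos.le 7
        rw [hv, Real.exp_log hVr, ← hv] at h9
        have h10 : ((Nat.factorial 7 : ℕ) : ℝ) = 5040 := by norm_num [Nat.factorial]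
        rw [h10] at h9
        exact h9
      rw [le_div_iff₀ hlpos]
      have h11 : L ^ 3 / 64 ≤ v ^ 6 := by
        calc L ^ 3 / 64 = (Real.sqrt L / 2) ^ 6 := by
              rw [div_pow, show (Real.sqrt L) ^ 6 = (Real.sqrt L * Real.sqrt L) ^ 3 by ring, hsq2]
              norm_num
          _ ≤ v ^ 6 := by gcongr
      have h12 := hC.hw
      rw [div_le_iff₀ hc] at h12
      have h13 : L ≤ (c / 4) * (v ^ 6 / 5040) := by
        have h14 : (c / 4) * ((L ^ 3 / 64) / 5040) ≤ (c / 4) * (v ^ 6 / 5040) := by gcongr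
        refine le_trans ?_ h14
        have h15 : (c / 4) * ((L ^ 3 / 64) / 5040) = (L ^ 2 * c) * L / 1290240 := by ring
        rw [h15, le_div_iff₀ (by norm_num)]
        have hL0 : 0 < L := by linarith
        nlinarith
      calc (D.primeFactors.card : ℝ) * v ≤ L * v := by gcongr
        _ ≤ (c / 4) * (v ^ 6 / 5040) * v := by gcongr
        _ = (c / 4) * (v ^ 7 / 5040) := by ring
        _ ≤ _ := by gcongr
    have h6 : c * ((2 ^ i : ℕ) : ℝ) / Real.log ((2 ^ i : ℕ) : ℝ) ≤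
        c0 * ((2 ^ i : ℕ) : ℝ) / Real.log ((2 ^ i : ℕ) : ℝ) := by gcongr
    have h7 : c / 4 * ((2 : ℝ) ^ i / (i * Real.log 2)) =
        (c / 4) * ((2 ^ i : ℕ) : ℝ) / Real.log ((2 ^ i : ℕ) : ℝ) := by
      rw [hlog]; push_cast; ring
    have h8 : c * ((2 ^ i : ℕ) : ℝ) / Real.log ((2 ^ i : ℕ) : ℝ) =
        4 * ((c / 4) * ((2 ^ i : ℕ) : ℝ) / Real.log ((2 ^ i : ℕ) : ℝ)) := by ring
    rw [h7]
    linarith
  have h2 := harm W X D i1 (Nat.pow_log_le_self 2 (by omega)) (Ioo i0 i1)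
    (fun i hi => by rw [mem_Ioo] at hi; omega)
  refine le_trans ?_ h2
  have h3 : c / 8 * ∑ i ∈ Ioo i0 i1, (1 : ℝ) / i ≤
      ∑ i ∈ Ioo i0 i1, (1 / 2 : ℝ) ^ (i + 1) * ((LS W (2 ^ i) D).card : ℝ) := by
    rw [mul_sum]
    apply sum_le_sum
    intro i hi
    have h4 := hcard i hi
    rw [mem_Ioo] at hi
    have hipos : (0 : ℝ) < i := by
      have : 0 < i := by omega
      exact_mod_cast this
    calc c / 8 * (1 / i) ≤ c / 8 * (1 / (i * Real.log 2)) := by
          gcongr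
          nlinarith
      _ = (1 / 2 : ℝ) ^ (i + 1) * (c / 4 * ((2 : ℝ) ^ i / (i * Real.log 2))) := by
          rw [pow_succ, one_div_pow]
          field_simp
          norm_num
      _ ≤ _ := by gcongr
  refine le_trans ?_ h3
  have h4 := log_le_sum i0 n
  rw [← hn] at h4
  have h5 : ((i0 : ℝ) + 1 + n) = i1 := by rw [hn]; push_cast; ring
  rw [h5] at h4
  have h6 : Real.log L ≤ Real.log i1 := Real.log_le_log (by linarith) hi1L
  have h7 : Real.log (i0 + 1) ≤ Real.log 2 + Real.log L / 2 := by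
    have h8 := Real.log_le_log (by positivity) hi0L
    rw [Real.log_mul (by norm_num) (by positivity), Real.log_sqrt (by linarith)] at h8
    exact h8
  have h8 : 4 * Real.log 2 ≤ Real.log L := by
    rw [show (4 : ℝ) * Real.log 2 = Real.log (2 ^ 4) by rw [Real.log_pow]; norm_num]
    apply Real.log_le_log (by norm_num)
    linarith
  nlinarith

end Pool.Agent.Y141.TS
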