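import Pool.Agent.Y141.TS.C

/-!
# TSM: the bad moduli, end of the proof (helper141, for helper676)
-/

set_option autoImplicit false

namespace Pool.Agent.Y141.TS

open Finset Pool.Agent.Y676

/-- a bad modulus is large -/
theorem bad_large (W X D : ℕ) (c q : ℝ) (hc : 0 < c) (hc1 : c ≤ 1) (hX : 1 ≤ X)
    (hC : Cond c q (Real.log X))
    (hS : ∀ Q : ℕ, q ≤ Q → ∀ D : ℕ, 2 ≤ D → (D : ℝ) ≤ (Real.log Q) ^ 60 → Odd D → Squarefree D →
      D.Coprime W → (Real.log Q) ^ 2 * |(SJ W Q D : ℝ)| ≤ Q)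
    (hD : 2 ≤ D) (hodd : Odd D) (hsq : Squarefree D) (hcop : D.Coprime W) (i : ℕ)
    (hi : i ∈ Icc ⌈Real.sqrt (Real.log X)⌉₊ (Nat.log 2 X))
    (hb : (c / 4) * ((2 ^ i : ℕ) : ℝ) / Real.log ((2 ^ i : ℕ) : ℝ) ≤ |(SJ W (2 ^ i) D : ℝ)|) :
    (Real.log X) ^ 20 < D := by
  by_contra hcon
  push Not at hcon
  rw [mem_Icc] at hi
  obtain ⟨hV2, hVX, hlog, hlogL, hlogL2, hq, his⟩ := scale hX hC hi.1 hi.2
  set L := Real.log X with hL
  set V : ℕ := 2 ^ i with hV
  have hL1 : (10000 : ℝ) ≤ L := hC.h1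
  have hs100 : (100 : ℝ) ≤ Real.sqrt L := by
    rw [Real.le_sqrt (by norm_num) (by linarith)]; linarith
  have hsq2 : Real.sqrt L * Real.sqrt L = L := Real.mul_self_sqrt (by linarith)
  have hlV : 50 ≤ Real.log V := by linarith
  have hVr : (0 : ℝ) < V := by positivity
  have h60 : (D : ℝ) ≤ (Real.log V) ^ 60 := by
    refine hcon.trans ?_
    calc L ^ 20 ≤ L ^ 20 * (L ^ 10 / 2 ^ 60) := by
          have h3 : (1 : ℝ) ≤ L ^ 10 / 2 ^ 60 := by
            rw [le_div_iff₀ (by positivity), one_mul]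
            calc (2 : ℝ) ^ 60 = (2 ^ 6) ^ 10 := by norm_num
              _ ≤ L ^ 10 := by gcongr; linarith
          have h4 : (0 : ℝ) ≤ L ^ 20 := by positivity
          nlinarith
      _ = (Real.sqrt L / 2) ^ 60 := by
          rw [div_pow, show (Real.sqrt L) ^ 60 = (Real.sqrt L * Real.sqrt L) ^ 30 by ring, hsq2]
          ring
      _ ≤ (Real.log V) ^ 60 := by gcongr
  have h2 := hS V hq D hD h60 hodd hsq hcop
  have h3 : (Real.log V) ^ 2 * ((c / 4) * V / Real.log V) ≤ V :=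
    (mul_le_mul_of_nonneg_left hb (by positivity)).trans h2
  have h4 : (Real.log V) ^ 2 * ((c / 4) * V / Real.log V) = ((c / 4) * Real.log V) * V := by
    field_simp
  rw [h4] at h3
  have h5 : (c / 4) * Real.log V ≤ 1 := by
    have h6 : ((c / 4) * Real.log V) * V ≤ 1 * V := by linarith
    exact le_of_mul_le_mul_right h6 hVr
  have h6 := hC.hc
  rw [div_le_iff₀ (by positivity)] at h6
  have h7 : c ^ 2 ≤ c := by nlinarith
  have h8 : 80 ≤ Real.sqrt L * c := by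
    have : Real.sqrt L * c ^ 2 ≤ Real.sqrt L * c := by gcongr
    linarith
  nlinarith

/-- the number of bad moduli -/
theorem bad_card (h1 : S_LSM) (W X Z : ℕ) (c q : ℝ) (h8 : 8 ∣ W) (hW : 0 < W) (hc : 0 < c)
    (hX : 1 ≤ X) (hC : Cond c q (Real.log X)) (hZ : 1 ≤ Z) (hZX : Z ≤ X) (S : Finset ℕ)
    (hS : ∀ D ∈ S, 1 ≤ D ∧ D ≤ Z ∧ Odd D ∧ Squarefree D ∧
      ∃ i ∈ Icc ⌈Real.sqrt (Real.log X)⌉₊ (Nat.log 2 X),
        (c / 4) * ((2 ^ i : ℕ) : ℝ) / Real.log ((2 ^ i : ℕ) : ℝ) ≤ |(SJ W (2 ^ i) D : ℝ)|) :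
    (S.card : ℝ) ≤ 780 * (Real.log X) ^ 4 * Real.exp (Real.log Z / 4) := by
  classical
  set L := Real.log X with hL
  have hL1 : (10000 : ℝ) ≤ L := hC.h1
  set I := Icc ⌈Real.sqrt L⌉₊ (Nat.log 2 X) with hI
  let T : ℕ → Finset ℕ := fun i => S.filter (fun D =>
    (c / 4) * ((2 ^ i : ℕ) : ℝ) / Real.log ((2 ^ i : ℕ) : ℝ) ≤ |(SJ W (2 ^ i) D : ℝ)|)
  have hsub : S ⊆ I.biUnion T := by
    intro D hD
    obtain ⟨-, -, -, -, i, hi, hb⟩ := hS D hD
    rw [mem_biUnion]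
    exact ⟨i, hi, mem_filter.mpr ⟨hD, hb⟩⟩
  have h2 : (S.card : ℝ) ≤ ∑ i ∈ I, ((T i).card : ℝ) := by
    have := (card_le_card hsub).trans card_biUnion_le
    exact_mod_cast this
  have h3 : ∀ i ∈ I, ((T i).card : ℝ) ≤ 390 * L ^ 3 * Real.exp (Real.log Z / 4) := by
    intro i hi
    rw [hI, mem_Icc] at hi
    obtain ⟨hV2, hVX, hlog, hlogL, hlogL2, hq, his⟩ := scale hX hC hi.1 hi.2
    apply cardB h1 W (2 ^ i) Z c L h8 hW hc hV2 hlogL hlogL2 hZ
    · apply Real.log_le_log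
      · exact_mod_cast hZ
      · exact_mod_cast hZX
    · linarith
    · exact hC.hc
    · exact hC.hl
    · intro D hD
      obtain ⟨h4, h5, h6, h7, -⟩ := hS D (mem_filter.mp hD).1
      exact mem_filter.mpr ⟨mem_Icc.mpr ⟨h4, h5⟩, h6, h7⟩
    · intro D hD
      exact (mem_filter.mp hD).2
  have h4 : (I.card : ℝ) ≤ 2 * L := by
    have h5 : I.card ≤ Nat.log 2 X + 1 := by
      rw [hI, Nat.card_Icc]; omega
    have h6 : (2 : ℝ) ^ (Nat.log 2 X) ≤ X := by
      exact_mod_cast Nat.pow_log_le_self 2 (by omega)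
    have h7 := Real.log_le_log (by positivity) h6
    rw [Real.log_pow, ← hL] at h7
    have h8 : (0.6931471803 : ℝ) < Real.log 2 := Real.log_two_gt_d9
    have h9 : (I.card : ℝ) ≤ (Nat.log 2 X : ℝ) + 1 := by exact_mod_cast h5
    have h10 : (0 : ℝ) ≤ (Nat.log 2 X : ℝ) := Nat.cast_nonneg _
    nlinarith
  calc (S.card : ℝ) ≤ ∑ i ∈ I, (390 * L ^ 3 * Real.exp (Real.log Z / 4)) :=
        h2.trans (sum_le_sum h3)
    _ = (I.card : ℝ) * (390 * L ^ 3 * Real.exp (Real.log Z / 4)) := by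
        rw [sum_const, nsmul_eq_mul]
    _ ≤ (2 * L) * (390 * L ^ 3 * Real.exp (Real.log Z / 4)) := by
        have : 0 ≤ 390 * L ^ 3 * Real.exp (Real.log Z / 4) := by positivity
        gcongr
    _ = _ := by ring

/-- the sum over the bad moduli -/
theorem bad_sum (h1 : S_LSM) (W X : ℕ) (c q : ℝ) (h8 : 8 ∣ W) (hW : 0 < W) (hc : 0 < c)
    (hX : 4 ≤ X) (hC : Cond c q (Real.log X)) (S : Finset ℕ)
    (hS : ∀ D ∈ S, 2 ≤ D ∧ D ^ 2 ≤ X ∧ Odd D ∧ Squarefree D ∧ (Real.log X) ^ 20 < D ∧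
      ∃ i ∈ Icc ⌈Real.sqrt (Real.log X)⌉₊ (Nat.log 2 X),
        (c / 4) * ((2 ^ i : ℕ) : ℝ) / Real.log ((2 ^ i : ℕ) : ℝ) ≤ |(SJ W (2 ^ i) D : ℝ)|) :
    ∑ D ∈ S, (1 : ℝ) / D ≤ 1 / (Real.log X) ^ 2 := by
  classical
  set L := Real.log X with hL
  have hL1 : (10000 : ℝ) ≤ L := hC.h1
  have hL0 : 0 < L := by linarith
  let J := (range (Nat.log 2 X + 1)).filter (fun j => L ^ 20 ≤ (2 : ℝ) ^ j)
  have h2 : ∀ D ∈ S, (1 : ℝ) / D ≤ ∑ j ∈ J, if D ≤ 2 ^ j then 2 / (2 : ℝ) ^ j else 0 := by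
    intro D hD
    obtain ⟨hD2, hDX, -, -, hDL, -⟩ := hS D hD
    set j := Nat.clog 2 D with hj
    have hDj : D ≤ 2 ^ j := Nat.le_pow_clog (by norm_num) D
    have hjD : 2 ^ j < 2 * D := by
      have h3 := Nat.pow_pred_clog_lt_self (b := 2) (by norm_num) (show 1 < D by omega)
      have h4 : 1 ≤ j := Nat.clog_pos (by norm_num) (by omega)
      have h5 : 2 ^ j = 2 * 2 ^ (j - 1) := by
        rw [← pow_succ']
        congr 1
        omega
      rw [← hj, Nat.pred_eq_sub_one] at h3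
      omega
    have hjX : 2 ^ j ≤ X := by nlinarith
    have hjJ : j ∈ J := by
      rw [mem_filter, mem_range]
      refine ⟨?_, ?_⟩
      · have := Nat.le_log_of_pow_le (b := 2) (by norm_num) hjX
        omega
      · have : (D : ℝ) ≤ (2 : ℝ) ^ j := by exact_mod_cast hDj
        linarith
    have h6 : (1 : ℝ) / D ≤ 2 / (2 : ℝ) ^ j := by
      rw [div_le_div_iff₀ (by positivity) (by positivity)]
      have : ((2 : ℝ)) ^ j ≤ 2 * D := by exact_mod_cast hjD.le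
      linarith
    refine h6.trans ?_
    have h7 := single_le_sum (f := fun j => if D ≤ 2 ^ j then 2 / (2 : ℝ) ^ j else 0)
      (fun i _ => by positivity) hjJ
    simp only [if_pos hDj] at h7
    exact h7
  have h3 : ∑ D ∈ S, (1 : ℝ) / D ≤
      ∑ j ∈ J, 2 / (2 : ℝ) ^ j * ((S.filter (fun D => D ≤ 2 ^ j)).card : ℝ) := by
    refine (sum_le_sum h2).trans (le_of_eq ?_)
    rw [sum_comm]
    apply sum_congr rfl
    intro j _
    rw [← sum_filter, sum_const, nsmul_eq_mul, mul_comm]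
  have h4 : ∀ j ∈ J, 2 / (2 : ℝ) ^ j * ((S.filter (fun D => D ≤ 2 ^ j)).card : ℝ) ≤
      1560 * L ^ 4 / L ^ 15 := by
    intro j hj
    rw [mem_filter, mem_range] at hj
    have h2jX : 2 ^ j ≤ X := (Nat.pow_le_pow_right (by norm_num) (by omega)).trans
      (Nat.pow_log_le_self 2 (by omega))
    have h5 := bad_card h1 W X (2 ^ j) c q h8 hW hc (by omega) hC Nat.one_le_two_pow h2jX
      (S.filter (fun D => D ≤ 2 ^ j)) (by
        intro D hD
        rw [mem_filter] at hD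
        obtain ⟨hD2, hDX, hodd, hsq, -, hex⟩ := hS D hD.1
        exact ⟨by omega, hD.2, hodd, hsq, hex⟩)
    have h2j : (0 : ℝ) < (2 : ℝ) ^ j := by positivity
    set z := Real.log ((2 ^ j : ℕ) : ℝ) with hz
    have hez : Real.exp z = (2 : ℝ) ^ j := by
      rw [hz, Real.exp_log (by positivity)]
      push_cast
      rfl
    have hzL : 20 * Real.log L ≤ z := by
      have h6 := Real.log_le_log (by positivity) hj.2
      rw [Real.log_pow] at h6
      rw [hz]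
      push_cast at h6 ⊢
      exact h6
    calc 2 / (2 : ℝ) ^ j * ((S.filter (fun D => D ≤ 2 ^ j)).card : ℝ) ≤
        2 / (2 : ℝ) ^ j * (780 * L ^ 4 * Real.exp (z / 4)) := by gcongr
      _ = 1560 * L ^ 4 * Real.exp (-(3 / 4) * z) := by
          rw [← hez]
          have : Real.exp (z / 4) = Real.exp (-(3 / 4) * z) * Real.exp z := by
            rw [← Real.exp_add]; congr 1; ring
          rw [this]
          field_simp
          norm_num
      _ ≤ 1560 * L ^ 4 * Real.exp (-(15 * Real.log L)) := by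
          gcongr
          linarith
      _ = 1560 * L ^ 4 / L ^ 15 := by
          rw [Real.exp_neg, show (15 : ℝ) * Real.log L = ((15 : ℕ) : ℝ) * Real.log L by norm_num,
            Real.exp_nat_mul, Real.exp_log hL0]
          ring
  have h5 : (J.card : ℝ) ≤ 2 * L := by
    have h5 : J.card ≤ Nat.log 2 X + 1 := by
      refine (card_filter_le _ _).trans ?_
      rw [card_range]
    have h6 : (2 : ℝ) ^ (Nat.log 2 X) ≤ X := by
      exact_mod_cast Nat.pow_log_le_self 2 (by omega)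
    have h7 := Real.log_le_log (by positivity) h6
    rw [Real.log_pow, ← hL] at h7
    have h8 : (0.6931471803 : ℝ) < Real.log 2 := Real.log_two_gt_d9
    have h9 : (J.card : ℝ) ≤ (Nat.log 2 X : ℝ) + 1 := by exact_mod_cast h5
    have h10 : (0 : ℝ) ≤ (Nat.log 2 X : ℝ) := Nat.cast_nonneg _
    nlinarith
  calc ∑ D ∈ S, (1 : ℝ) / D ≤ ∑ j ∈ J, (1560 * L ^ 4 / L ^ 15) := h3.trans (sum_le_sum h4)
    _ = (J.card : ℝ) * (1560 * L ^ 4 / L ^ 15) := by rw [sum_const, nsmul_eq_mul]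
    _ ≤ (2 * L) * (1560 * L ^ 4 / L ^ 15) := by gcongr
    _ = 3120 / L ^ 10 := by field_simp; norm_num
    _ ≤ 1 / L ^ 2 := by
        rw [div_le_div_iff₀ (by positivity) (by positivity), one_mul]
        have h6 : (3120 : ℝ) ≤ L ^ 8 := by
          calc (3120 : ℝ) ≤ L := by linarith
            _ ≤ L ^ 8 := le_self_pow₀ (by linarith) (by norm_num)
        calc (3120 : ℝ) * L ^ 2 ≤ L ^ 8 * L ^ 2 := by gcongr
          _ = L ^ 10 := by ring

/-- TSM from the inputs -/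
theorem tsm_of (h1 : S_LSM) (h2 : S_SWJ) (h3 : S_PNT) : S_TSM := by
  classical
  intro W h8 hW
  obtain ⟨c0, Q1, hc0, hQ1⟩ := h3 W hW
  obtain ⟨Q2, hQ2⟩ := h2 W 60 2 h8 hW
  set c := min c0 1 with hcdef
  have hc : 0 < c := lt_min hc0 one_pos
  have hc1 : c ≤ 1 := min_le_right _ _
  have hcc : c ≤ c0 := min_le_left _ _
  set q : ℝ := ((max Q1 Q2 : ℕ) : ℝ) with hq
  obtain ⟨L0, hL0⟩ := cond_ev c q
  refine ⟨c / 32, by positivity, max 4 (⌈Real.exp L0⌉₊), ?_⟩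
  intro X hX
  have hX4 : 4 ≤ X := (le_max_left _ _).trans hX
  have hXL : L0 ≤ Real.log X := by
    have h4 : Real.exp L0 ≤ X := (Nat.le_ceil _).trans (by exact_mod_cast (le_max_right _ _).trans hX)
    have h5 := Real.log_le_log (Real.exp_pos _) h4
    rwa [Real.log_exp] at h5
  have hC := hL0 _ hXL
  apply bad_sum h1 W X c q h8 hW hc hX4 hC
  intro D hD
  rw [mem_filter, mem_Icc] at hD
  obtain ⟨⟨hD2, -⟩, hDX, hcop, hsq, hlt⟩ := hD
  have hodd : Odd D := by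
    rw [← Nat.not_even_iff_odd]
    intro he
    have h4 : 2 ∣ W := (by norm_num : 2 ∣ 8).trans h8
    have h5 : 2 ∣ Nat.gcd D W := Nat.dvd_gcd he.two_dvd h4
    rw [hcop] at h5
    norm_num at h5
  have hex : ∃ i ∈ Icc ⌈Real.sqrt (Real.log X)⌉₊ (Nat.log 2 X),
      (c / 4) * ((2 ^ i : ℕ) : ℝ) / Real.log ((2 ^ i : ℕ) : ℝ) ≤ |(SJ W (2 ^ i) D : ℝ)| := by
    by_contra hcon
    push Not at hcon
    have h4 := good W X D c c0 q hc hc1 hcc (by omega) hC (fun Q hQ => hQ1 Q (by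
      have : max Q1 Q2 ≤ Q := by
        rw [hq] at hQ
        exact_mod_cast hQ
      exact (le_max_left _ _).trans this)) (by omega) hDX (fun i hi => (hcon i hi).le)
    linarith
  refine ⟨hD2, hDX, hodd, hsq, ?_, hex⟩
  obtain ⟨i, hi, hb⟩ := hex
  exact bad_large W X D c q hc hc1 (by omega) hC (fun Q hQ => hQ2 Q (by
      have : max Q1 Q2 ≤ Q := by
        rw [hq] at hQ
        exact_mod_cast hQ
      exact (le_max_right _ _).trans this)) hD2 hodd hsq hcop i hi hb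

end Pool.Agent.Y141.TS
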