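import Pool.Agent.Y141.TS.D
import Pool.Agent.Y157.SH.Lsm
import Pool.Agent.Y157.SH.Swj
import Pool.Agent.Y157.SH.Pnt

/-!
# TSM (helper141, for helper676)
-/

set_option autoImplicit false

namespace Pool.Agent.Y141.TS

theorem tsm : Pool.Agent.Y676.S_TSM :=
  tsm_of Pool.Agent.Y157.SH.lsm Pool.Agent.Y157.SH.swj Pool.Agent.Y157.SH.pnt

end Pool.Agent.Y141.TS
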